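import Pool.Agent.Helper43.Gr.Goals

/-! Packet R7: multiplicities in any order. -/

set_option autoImplicit false

namespace Pool.Agent.Helper43.Gr.PkR7

open Finset
open Pool.Agent.Helper43.Gm (st mv nn SS Run Pri)
open Pool.Agent.Lead.Sh (Inj rows triD)
open Pool.Agent.Lead.Rw (Ind')
open Helper18.Cusp (Concl)
open Pool.Agent.Helper43.Gr

theorem goalR7 (h6 : GoalR6) : GoalR7 := by
  intro s m d K hK hg hw
  obtain ⟨σ, hσ⟩ : ∃ σ : Equiv.Perm (Fin s), Antitone (m ∘ σ) :=
    ⟨Tuple.sort (OrderDual.toDual ∘ m), fun i j hij =>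
      Tuple.monotone_sort (OrderDual.toDual ∘ m) hij⟩
  set m' : ℕ → ℕ := fun i => if h : i < s then m (σ ⟨i, h⟩) else 0 with hm'
  have e1 : ∀ i : Fin s, m' (i : ℕ) = m (σ i) := fun i => by
    simp only [hm', i.2, dif_pos]
  have e2 : ∀ i, s ≤ i → m' i = 0 := fun i hi => by
    simp only [hm', dif_neg (not_lt.2 hi)]
  have hanti : Antitone m' := by
    intro i j hij
    rcases Nat.lt_or_ge j s with hj | hj
    · have h1 := hσ (show (⟨i, lt_of_le_of_lt hij hj⟩ : Fin s) ≤ ⟨j, hj⟩ from hij)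
      have h2 := e1 ⟨i, lt_of_le_of_lt hij hj⟩
      have h3 := e1 ⟨j, hj⟩
      simp only at h2 h3
      rw [h2, h3]
      exact h1
    · rw [e2 j hj]
      exact Nat.zero_le _
  have hgr : ∀ i, K < m' i →
      10 * m' i ^ 2 ≤ ∑ j ∈ (range s).filter (fun j => m' j < m' i), (m' j + 1).choose 2 := by
    intro i hi
    have his : i < s := by
      by_contra hc
      rw [e2 i (not_lt.1 hc)] at hi
      omega
    have h1 := e1 ⟨i, his⟩
    simp only at h1
    rw [h1] at hi ⊢
    have h2 := hg (σ ⟨i, his⟩) hi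
    refine h2.trans (le_of_eq ?_)
    rw [Finset.sum_filter, Finset.sum_filter, Finset.sum_range]
    rw [← Equiv.sum_comp σ]
    refine Finset.sum_congr rfl fun j _ => ?_
    rw [e1 j]
  have hcard : (Finset.univ.filter (fun i : Fin s => m' (i : ℕ) = 1)).card =
      (Finset.univ.filter (fun i : Fin s => m i = 1)).card := by
    rw [Finset.card_filter, Finset.card_filter,
      ← Equiv.sum_comp σ (fun i => if m i = 1 then 1 else 0)]
    refine Finset.sum_congr rfl fun j _ => ?_
    rw [e1 j]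
  have hsum : ∑ i : Fin s, (Nat.choose (m' (i : ℕ) + 1) 2 : ℤ) =
      ∑ i : Fin s, (Nat.choose (m i + 1) 2 : ℤ) := by
    rw [← Equiv.sum_comp σ (fun i => (Nat.choose (m i + 1) 2 : ℤ))]
    refine Finset.sum_congr rfl fun j _ => ?_
    rw [e1 j]
  obtain ⟨G, hG0, hG⟩ := h6 s m' d K hanti e2 hK hgr (by rw [hcard, hsum]; exact hw)
  refine ⟨MvPolynomial.rename (fun ij : Fin s × Fin 3 => (σ ij.1, ij.2)) G, ?_, ?_⟩
  · intro h
    apply hG0
    have hinj : Function.Injective (fun ij : Fin s × Fin 3 => (σ ij.1, ij.2)) := by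
      rintro ⟨a, b⟩ ⟨a', b'⟩ hab
      simp only [Prod.mk.injEq, EmbeddingLike.apply_eq_iff_eq] at hab
      exact Prod.ext hab.1 hab.2
    exact MvPolynomial.rename_injective _ hinj (by rw [h, map_zero])
  · intro P hP hne
    rw [MvPolynomial.eval_rename] at hne
    have h1 := hG (fun i => P (σ i)) (fun i => hP _) hne
    rw [hsum] at h1
    rw [← h1]
    have h2 : (⨅ i : Fin s, Submodule.restrictScalars ℂ
            ((Ideal.span {g : MvPolynomial (Fin 3) ℂ |
                g.IsHomogeneous 1 ∧ MvPolynomial.eval (P i) g = 0}) ^ (m i)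
              : Ideal (MvPolynomial (Fin 3) ℂ))) =
        ⨅ i : Fin s, Submodule.restrictScalars ℂ
            ((Ideal.span {g : MvPolynomial (Fin 3) ℂ |
                g.IsHomogeneous 1 ∧ MvPolynomial.eval (P (σ i)) g = 0}) ^ (m' (i : ℕ))
              : Ideal (MvPolynomial (Fin 3) ℂ)) := by
      rw [← Equiv.iInf_comp σ]
      refine iInf_congr fun i => ?_
      rw [e1 i]
    rw [h2]
    rfl

end Pool.Agent.Helper43.Gr.PkR7
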