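import Pool.Agent.Helper43.Gr.Goals

/-! Packet R9: almost all sequences. -/

set_option autoImplicit false

namespace Pool.Agent.Helper43.Gr.PkR9

open Finset
open Pool.Agent.Helper43.Gm (st mv nn SS Run Pri)
open Pool.Agent.Lead.Sh (Inj rows triD)
open Pool.Agent.Lead.Rw (Ind')
open Helper18.Cusp (Concl)
open Pool.Agent.Helper43.Gr

theorem many_ones {s M : ℕ} {m : Fin s → ℕ} (hs : 3 ≤ s) (hm : m ∈ Om s M)
    (hg : Graded s m 1) : 3 ≤ (Finset.univ.filter (fun i : Fin s => m i = 1)).card := by
  have h1 : ∀ i, 1 ≤ m i := fun i => (Finset.mem_Icc.1 (Fintype.mem_piFinset.1 hm i)).1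
  by_cases hall : ∀ i, m i = 1
  · have h2 : Finset.univ.filter (fun i : Fin s => m i = 1) = Finset.univ :=
      Finset.filter_true_of_mem fun i _ => hall i
    rw [h2, Finset.card_univ, Fintype.card_fin]
    exact hs
  · push Not at hall
    obtain ⟨i0, hi0⟩ := hall
    obtain ⟨i, hi, hmin⟩ := Finset.exists_min_image (Finset.univ.filter (fun i : Fin s => m i ≠ 1))
      m ⟨i0, by simpa using hi0⟩
    rw [Finset.mem_filter] at hi
    have hi2 : 2 ≤ m i := by
      have := h1 i
      have := hi.2
      omega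
    have h3 := hg i (by omega)
    have h4 : ∑ j ∈ Finset.univ.filter (fun j => m j < m i), (m j + 1).choose 2 ≤
        (Finset.univ.filter (fun i : Fin s => m i = 1)).card := by
      have hsub : Finset.univ.filter (fun j => m j < m i) ⊆
          Finset.univ.filter (fun i : Fin s => m i = 1) := by
        intro j hj
        rw [Finset.mem_filter] at hj ⊢
        refine ⟨hj.1, ?_⟩
        by_contra hc
        have := hmin j (by rw [Finset.mem_filter]; exact ⟨Finset.mem_univ _, hc⟩)
        have := hj.2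
        omega
      have h5 : ∑ j ∈ Finset.univ.filter (fun j => m j < m i), (m j + 1).choose 2 =
          ∑ j ∈ Finset.univ.filter (fun j => m j < m i), 1 := by
        refine Finset.sum_congr rfl fun j hj => ?_
        have h6 := (Finset.mem_filter.1 (hsub hj)).2
        rw [h6]
        rfl
      rw [h5, Finset.sum_const, smul_eq_mul, mul_one]
      exact Finset.card_le_card hsub
    have h7 : 10 * 2 ^ 2 ≤ 10 * m i ^ 2 := Nat.mul_le_mul_left _ (Nat.pow_le_pow_left hi2 2)
    omega

theorem goalR9 (h7 : GoalR7) (h8b : GoalR8b) (h8c : GoalR8c) : GoalR9 := by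
  classical
  intro ε hε
  obtain ⟨C, hC1, hC⟩ := h8b (ε / 2) (by positivity)
  obtain ⟨η, hη, s1, h1⟩ := h8c C (ε / 2) hC1 (by positivity)
  refine ⟨η, hη, max s1 3, fun s M hs hM hMs => ?_⟩
  have hs1 : s1 ≤ s := (le_max_left _ _).trans hs
  have hs3 : 3 ≤ s := (le_max_right _ _).trans hs
  have hs0 : (0 : ℝ) < s := by
    have : 0 < s := by omega
    exact_mod_cast this
  have hMp : (0 : ℝ) ≤ (M : ℝ) ^ s := by positivity
  rcases le_or_gt (C * M) (s : ℝ) with hcase | hcase
  · have h2 := hC s M 1 hM le_rfl (by simpa using hcase)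
    have hsub : (Om s M).filter (fun m => ∃ d, ¬ NSf s m d) ⊆
        (Om s M).filter (fun m => ¬ Graded s m 1) := by
      intro m hm
      rw [Finset.mem_filter] at hm ⊢
      refine ⟨hm.1, fun hg => ?_⟩
      obtain ⟨d, hd⟩ := hm.2
      apply hd
      refine h7 s m d 1 le_rfl hg ?_
      have h3 := many_ones hs3 hm.1 hg
      have h4 : (3 : ℤ) ≤ ((Finset.univ.filter (fun i : Fin s => m i = 1)).card : ℤ) := by
        exact_mod_cast h3
      push_cast
      omega
    have h5 : (((Om s M).filter (fun m => ∃ d, ¬ NSf s m d)).card : ℝ) ≤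
        (((Om s M).filter (fun m => ¬ Graded s m 1)).card : ℝ) := by
      exact_mod_cast Finset.card_le_card hsub
    nlinarith [h5, h2, mul_nonneg hε.le hMp]
  · set K : ℕ := ⌈C * M / s⌉₊ with hK
    have hM0 : (0 : ℝ) < M := by exact_mod_cast hM
    have hCM : 0 < C * M / s := by positivity
    have hK1 : 1 ≤ K := Nat.one_le_iff_ne_zero.2 (Nat.ceil_pos.2 hCM).ne'
    have hKle : C * M / s ≤ (K : ℝ) := Nat.le_ceil _
    have hKlt : (K : ℝ) < C * M / s + 1 := Nat.ceil_lt_add_one hCM.le
    have hK2 : C * M ≤ K * s := by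
      rw [div_le_iff₀ hs0] at hKle
      exact hKle
    have hK3 : (K : ℝ) * s ≤ 2 * C * M := by
      have h2 : (K : ℝ) * s ≤ (C * M / s + 1) * s := mul_le_mul_of_nonneg_right hKlt.le hs0.le
      have h3 : (C * M / s + 1) * s = C * M + s := by field_simp
      rw [h3] at h2
      linarith
    have h2 := hC s M K hM hK1 hK2
    have h3 := h1 s M K hs1 hcase.le hMs hK3
    have hsub : (Om s M).filter (fun m => ∃ d, ¬ NSf s m d) ⊆
        (Om s M).filter (fun m => ¬ Graded s m K) ∪
        (Om s M).filter (fun m => ∃ R : ℕ,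
          |((R + 1).choose 2 : ℤ) - ∑ i, ((m i + 1).choose 2 : ℤ)| < 3 * (K : ℤ) ^ 2) := by
      intro m hm
      rw [Finset.mem_filter] at hm
      rw [Finset.mem_union, Finset.mem_filter, Finset.mem_filter]
      obtain ⟨hmO, d, hd⟩ := hm
      by_contra hc
      push Not at hc
      obtain ⟨hg, hR⟩ := hc
      have hg' : Graded s m K := hg hmO
      have hR' := hR hmO (d + 1)
      apply hd
      refine h7 s m d K hK1 hg' ?_
      have hK' : (1 : ℤ) ≤ (K : ℤ) := by exact_mod_cast hK1
      have hn : (0 : ℤ) ≤ ((Finset.univ.filter (fun i : Fin s => m i = 1)).card : ℤ) := by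
        positivity
      rcases abs_cases (((d + 1 + 1).choose 2 : ℤ) - ∑ i, ((m i + 1).choose 2 : ℤ)) with h | h
      · left
        rw [h.1] at hR'
        nlinarith
      · right
        rw [h.1] at hR'
        nlinarith
    have h5 : (((Om s M).filter (fun m => ∃ d, ¬ NSf s m d)).card : ℝ) ≤
        (((Om s M).filter (fun m => ¬ Graded s m K)).card : ℝ) +
        (((Om s M).filter (fun m => ∃ R : ℕ,
          |((R + 1).choose 2 : ℤ) - ∑ i, ((m i + 1).choose 2 : ℤ)| < 3 * (K : ℤ) ^ 2)).card : ℝ) := by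
      exact_mod_cast (Finset.card_le_card hsub).trans (Finset.card_union_le _ _)
    have h6 : ε * (M : ℝ) ^ s = ε / 2 * (M : ℝ) ^ s + ε / 2 * (M : ℝ) ^ s := by ring
    rw [h6]
    exact h5.trans (add_le_add h2 h3)

end Pool.Agent.Helper43.Gr.PkR9
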